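import Pool.Agent.H712Z.Cot.Torus

set_option autoImplicit false

namespace Pool.Agent.Results.MP_f492a7_an.ASharpFails

open Pool.Agent.H712Z.Torus

/-- For every `q > 2` and every exponent `γ < 1 / 2` (in particular `γ = 1 / q`) there is a Banach
space of Rademacher cotype `q` for which the metric cotype `q` inequality fails, whatever the
constants, for some even `m ≥ C n ^ γ`. -/
theorem result (q γ : ℝ) (hq : 2 < q) (hγ : γ < 1 / 2) :
    ∃ (Y : Type) (_ : NormedAddCommGroup Y) (_ : NormedSpace ℝ Y), CompleteSpace Y ∧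
      HasCotype Y q ∧ ∀ C Γ : ℝ, ∃ (n m : ℕ) (_ : NeZero m), 1 ≤ n ∧ 2 ≤ m ∧ Even m ∧
        C * (n : ℝ) ^ γ ≤ m ∧ ¬ MetricCotypeIneq Y q Γ n m := by
  obtain ⟨Y, i1, i2, hc, hcot, h⟩ := main q γ hq hγ
  refine ⟨Y, i1, i2, hc, hcot, fun C Γ => ?_⟩
  obtain ⟨n, m, i3, h1, h2, h3, h4⟩ := h C Γ
  refine ⟨n, m, i3, h1, ?_, h2, h3, h4⟩
  have h0 : m ≠ 0 := i3.ne
  obtain ⟨k, hk⟩ := h2
  omega

end Pool.Agent.Results.MP_f492a7_an.ASharpFails
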